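import Pool.Agent.W788.BK.Stm

set_option autoImplicit false

open MeasureTheory Set Real
open scoped BigOperators

namespace Pool.Agent.W918.BK.Osc

/-- the oscillating function -/
noncomputable def U (s t : ℝ) : ℂ := Complex.exp (Complex.I * ((2 * (s * Real.cos t) : ℝ) : ℂ))

theorem U_cont (s : ℝ) : Continuous (U s) := by
  unfold U
  fun_prop

theorem U_norm (s t : ℝ) : ‖U s t‖ = 1 := by
  unfold U
  rw [mul_comm]
  exact Complex.norm_exp_ofReal_mul_I _

theorem U_lip (s x y : ℝ) : ‖U s x - U s y‖ ≤ 2 * |s| * |x - y| := by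
  have h1 : U s x - U s y = U s y *
      (Complex.exp (Complex.I * ((2 * (s * Real.cos x) - 2 * (s * Real.cos y) : ℝ) : ℂ)) - 1) := by
    unfold U
    rw [mul_sub, ← Complex.exp_add, mul_one]
    congr 2
    push_cast
    ring
  rw [h1, norm_mul, U_norm, one_mul]
  refine Real.norm_exp_I_mul_ofReal_sub_one_le.trans ?_
  have h2 : 2 * (s * Real.cos x) - 2 * (s * Real.cos y) = 2 * s * (Real.cos x - Real.cos y) := by
    ring
  rw [h2, Real.norm_eq_abs, abs_mul, abs_mul, abs_two]
  exact mul_le_mul_of_nonneg_left (Real.abs_cos_sub_cos_le x y) (by positivity)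

theorem U_hasDeriv (s t : ℝ) :
    HasDerivAt (U s) (U s t * (-(2 * Complex.I * s * (Real.sin t : ℂ)))) t := by
  have h1 : HasDerivAt (fun t : ℝ => 2 * (s * Real.cos t)) (2 * (s * (-Real.sin t))) t :=
    ((Real.hasDerivAt_cos t).const_mul s).const_mul 2
  have h2 := (h1.ofReal_comp.const_mul Complex.I).cexp
  unfold U
  convert h2 using 1
  push_cast
  ring

/-- the multiplier -/
noncomputable def V (s t : ℝ) : ℂ := Complex.I / (2 * s) * (((Real.sin t)⁻¹ : ℝ) : ℂ)

theorem V_hasDeriv (s t : ℝ) (ht : Real.sin t ≠ 0) :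
    HasDerivAt (V s) (Complex.I / (2 * s) * ((-Real.cos t / (Real.sin t) ^ 2 : ℝ) : ℂ)) t := by
  have h1 : HasDerivAt (fun t : ℝ => (Real.sin t)⁻¹) (-Real.cos t / (Real.sin t) ^ 2) t :=
    (Real.hasDerivAt_sin t).inv ht
  exact h1.ofReal_comp.const_mul _

theorem int_cs {ε : ℝ} (h0 : 0 < ε) (h1 : ε ≤ π / 2) :
    ∫ t in ε..(π / 2), Real.cos t / (Real.sin t) ^ 2 = (Real.sin ε)⁻¹ - 1 := by
  have hsin : ∀ x ∈ Set.uIcc ε (π / 2), 0 < Real.sin x := by
    intro x hx
    rw [uIcc_of_le h1] at hx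
    exact Real.sin_pos_of_pos_of_lt_pi (lt_of_lt_of_le h0 hx.1) (by linarith [hx.2, Real.pi_pos])
  have h2 := intervalIntegral.integral_eq_sub_of_hasDerivAt (a := ε) (b := π / 2)
    (f := fun t : ℝ => -(Real.sin t)⁻¹) (f' := fun t => Real.cos t / (Real.sin t) ^ 2)
    (fun x hx => by
      have := ((Real.hasDerivAt_sin x).inv (hsin x hx).ne').neg
      have h3 : Real.cos x / (Real.sin x) ^ 2 = -(-Real.cos x / (Real.sin x) ^ 2) := by ring
      rw [h3]
      exact this) (by
      apply ContinuousOn.intervalIntegrable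
      refine Real.continuous_cos.continuousOn.div (Real.continuous_sin.continuousOn.pow 2) ?_
      intro x hx
      exact pow_ne_zero _ (hsin x hx).ne')
  rw [h2, Real.sin_pi_div_two]
  ring

theorem main_piece {s ε : ℝ} (hs : s ≠ 0) (h0 : 0 < ε) (h1 : ε ≤ π / 2) :
    ‖∫ t in ε..(π / 2), U s t‖ ≤ (|s| * Real.sin ε)⁻¹ := by
  have hsin : ∀ x ∈ Set.uIcc ε (π / 2), 0 < Real.sin x := by
    intro x hx
    rw [uIcc_of_le h1] at hx
    exact Real.sin_pos_of_pos_of_lt_pi (lt_of_lt_of_le h0 hx.1) (by linarith [hx.2, Real.pi_pos])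
  have hse : 0 < Real.sin ε := hsin ε left_mem_uIcc
  have hsC : (s : ℂ) ≠ 0 := by exact_mod_cast hs
  have hVd : ∀ x ∈ Set.uIcc ε (π / 2), HasDerivAt (V s)
      (Complex.I / (2 * s) * ((-Real.cos x / (Real.sin x) ^ 2 : ℝ) : ℂ)) x :=
    fun x hx => V_hasDeriv s x (hsin x hx).ne'
  have hc : ContinuousOn (fun t : ℝ => -Real.cos t / (Real.sin t) ^ 2) (Set.uIcc ε (π / 2)) :=
    Real.continuous_cos.neg.continuousOn.div (Real.continuous_sin.continuousOn.pow 2)
      fun x hx => pow_ne_zero _ (hsin x hx).ne'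
  have hVi : IntervalIntegrable
      (fun x => Complex.I / (2 * s) * ((-Real.cos x / (Real.sin x) ^ 2 : ℝ) : ℂ)) volume ε (π / 2) :=
    (continuousOn_const.mul (Complex.continuous_ofReal.comp_continuousOn hc)).intervalIntegrable
  have hUi : IntervalIntegrable (fun t : ℝ => U s t * (-(2 * Complex.I * s * (Real.sin t : ℂ))))
      volume ε (π / 2) := by
    refine Continuous.intervalIntegrable ?_ _ _
    have := U_cont s
    fun_prop
  have key := intervalIntegral.integral_mul_deriv_eq_deriv_mul (a := ε) (b := π / 2)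
    hVd (fun x _ => U_hasDeriv s x) hVi hUi
  have h3 : ∫ t in ε..(π / 2), V s t * (U s t * (-(2 * Complex.I * s * (Real.sin t : ℂ)))) =
      ∫ t in ε..(π / 2), U s t := by
    refine intervalIntegral.integral_congr ?_
    intro x hx
    have hx' : ((Real.sin x : ℝ) : ℂ) ≠ 0 := by exact_mod_cast (hsin x hx).ne'
    simp only [V]
    rw [Complex.ofReal_inv]
    field_simp
    rw [Complex.I_sq]
    ring
  rw [h3] at key
  rw [key]
  have hVn : ∀ t, 0 < Real.sin t → ‖V s t‖ = (2 * |s|)⁻¹ * (Real.sin t)⁻¹ := by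
    intro t ht
    unfold V
    rw [norm_mul, norm_div, Complex.norm_I, norm_mul, Complex.norm_real, Complex.norm_real,
      Real.norm_eq_abs, Real.norm_eq_abs, abs_inv, abs_of_pos ht]
    simp
  have h4 : ‖∫ t in ε..(π / 2), Complex.I / (2 * s) * ((-Real.cos t / (Real.sin t) ^ 2 : ℝ) : ℂ) *
      U s t‖ ≤ ∫ t in ε..(π / 2), (2 * |s|)⁻¹ * (Real.cos t / (Real.sin t) ^ 2) := by
    refine intervalIntegral.norm_integral_le_of_norm_le h1 ?_ ?_
    · refine Filter.Eventually.of_forall ?_
      intro t ht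
      have hcos : 0 ≤ Real.cos t :=
        Real.cos_nonneg_of_mem_Icc ⟨by linarith [ht.1, Real.pi_pos], ht.2⟩
      rw [norm_mul, U_norm, mul_one, norm_mul, norm_div, Complex.norm_I, norm_mul,
        Complex.norm_real, Complex.norm_real, Real.norm_eq_abs, Real.norm_eq_abs, abs_div, abs_neg,
        abs_of_nonneg hcos, abs_of_nonneg (sq_nonneg (Real.sin t))]
      simp
    · apply ContinuousOn.intervalIntegrable
      refine continuousOn_const.mul (Real.continuous_cos.continuousOn.div
        (Real.continuous_sin.continuousOn.pow 2) ?_)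
      intro x hx
      exact pow_ne_zero _ (hsin x hx).ne'
  rw [intervalIntegral.integral_const_mul, int_cs h0 h1] at h4
  have h5 : ‖V s (π / 2) * U s (π / 2)‖ = (2 * |s|)⁻¹ := by
    rw [norm_mul, U_norm, mul_one, hVn _ (by rw [Real.sin_pi_div_two]; norm_num),
      Real.sin_pi_div_two]
    simp
  have h6 : ‖V s ε * U s ε‖ = (2 * |s|)⁻¹ * (Real.sin ε)⁻¹ := by
    rw [norm_mul, U_norm, mul_one, hVn _ hse]
  calc ‖V s (π / 2) * U s (π / 2) - V s ε * U s ε -
        ∫ t in ε..(π / 2), Complex.I / (2 * s) * ((-Real.cos t / (Real.sin t) ^ 2 : ℝ) : ℂ) *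
          U s t‖
      ≤ ‖V s (π / 2) * U s (π / 2)‖ + ‖V s ε * U s ε‖ +
        ‖∫ t in ε..(π / 2), Complex.I / (2 * s) * ((-Real.cos t / (Real.sin t) ^ 2 : ℝ) : ℂ) *
          U s t‖ := by
        refine (norm_sub_le _ _).trans ?_
        gcongr
        exact norm_sub_le _ _
    _ ≤ (2 * |s|)⁻¹ + (2 * |s|)⁻¹ * (Real.sin ε)⁻¹ +
        (2 * |s|)⁻¹ * ((Real.sin ε)⁻¹ - 1) := by
        rw [h5, h6]
        gcongr
    _ = (|s| * Real.sin ε)⁻¹ := by
        have : |s| ≠ 0 := abs_ne_zero.mpr hs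
        field_simp
        ring

theorem quarter {s : ℝ} (hs : 1 ≤ |s|) :
    ‖∫ t in (0 : ℝ)..(π / 2), U s t‖ ≤ (1 + π / 2) / √|s| := by
  have hs0 : s ≠ 0 := by
    intro h
    rw [h] at hs
    norm_num at hs
  have hq : 1 ≤ √|s| := Real.one_le_sqrt.mpr hs
  have hq0 : 0 < √|s| := by linarith
  set ε : ℝ := (√|s|)⁻¹ with hε
  have he0 : 0 < ε := inv_pos.mpr hq0
  have he1 : ε ≤ 1 := inv_le_one_of_one_le₀ hq
  have hpi : (3 : ℝ) < π := Real.pi_gt_three
  have he2 : ε ≤ π / 2 := by linarith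
  have hU : ∀ a b : ℝ, IntervalIntegrable (U s) volume a b :=
    fun a b => (U_cont s).intervalIntegrable a b
  rw [← intervalIntegral.integral_add_adjacent_intervals (hU 0 ε) (hU ε (π / 2))]
  have h1 : ‖∫ t in (0 : ℝ)..ε, U s t‖ ≤ ε := by
    have := intervalIntegral.norm_integral_le_of_norm_le_const (a := 0) (b := ε) (C := 1)
      (f := U s) (fun x _ => (U_norm s x).le)
    rwa [sub_zero, abs_of_pos he0, one_mul] at this
  have h2 := main_piece hs0 he0 he2
  have h3 : 2 / π * ε ≤ Real.sin ε := Real.mul_le_sin he0.le he2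
  have h4 : (|s| * Real.sin ε)⁻¹ ≤ π / 2 / √|s| := by
    have h5 : 0 < |s| * (2 / π * ε) := by positivity
    have h6 : (|s| * Real.sin ε)⁻¹ ≤ (|s| * (2 / π * ε))⁻¹ := by
      apply inv_anti₀ h5
      gcongr
    refine h6.trans (le_of_eq ?_)
    have h7 : |s| = √|s| * √|s| := (Real.mul_self_sqrt (abs_nonneg s)).symm
    rw [hε]
    nth_rewrite 1 [h7]
    field_simp
  calc ‖(∫ t in (0 : ℝ)..ε, U s t) + ∫ t in ε..(π / 2), U s t‖
      ≤ ε + π / 2 / √|s| := (norm_add_le _ _).trans (add_le_add h1 (h2.trans h4))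
    _ = (1 + π / 2) / √|s| := by
        rw [hε]
        field_simp

theorem full {r : ℝ} (hr : 1 ≤ r) :
    ‖∫ t in (0 : ℝ)..(2 * π), U r t‖ ≤ (4 + 2 * π) / √r := by
  have hU : ∀ s a b : ℝ, IntervalIntegrable (U s) volume a b :=
    fun s a b => (U_cont s).intervalIntegrable a b
  have h1 : ∫ t in π..(2 * π), U r t = ∫ t in (0 : ℝ)..π, U r t := by
    have := intervalIntegral.integral_comp_sub_left (a := (0 : ℝ)) (b := π) (U r) (2 * π)
    rw [sub_zero, show 2 * π - π = π by ring] at this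
    rw [← this]
    refine intervalIntegral.integral_congr fun x _ => ?_
    simp only [U]
    rw [show 2 * π - x = -(x - 2 * π) by ring, Real.cos_neg, Real.cos_sub_two_pi]
  have h2 : ∫ t in (π / 2)..π, U r t = ∫ t in (0 : ℝ)..(π / 2), U (-r) t := by
    have := intervalIntegral.integral_comp_sub_left (a := (0 : ℝ)) (b := π / 2) (U r) π
    rw [sub_zero, show π - π / 2 = π / 2 by ring] at this
    rw [← this]
    refine intervalIntegral.integral_congr fun x _ => ?_
    simp only [U]
    rw [Real.cos_pi_sub]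
    congr 3
    ring
  have h3 : ‖∫ t in (0 : ℝ)..π, U r t‖ ≤ 2 * ((1 + π / 2) / √r) := by
    rw [← intervalIntegral.integral_add_adjacent_intervals (hU r 0 (π / 2)) (hU r (π / 2) π), h2]
    refine (norm_add_le _ _).trans ?_
    have ha := quarter (s := r) (by rw [abs_of_pos (by linarith)]; exact hr)
    have hb := quarter (s := -r) (by rw [abs_neg, abs_of_pos (by linarith)]; exact hr)
    rw [abs_neg] at hb
    rw [abs_of_pos (by linarith : 0 < r)] at ha hb
    linarith
  rw [← intervalIntegral.integral_add_adjacent_intervals (hU r 0 π) (hU r π (2 * π)), h1]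
  refine (norm_add_le _ _).trans ?_
  calc ‖∫ t in (0 : ℝ)..π, U r t‖ + ‖∫ t in (0 : ℝ)..π, U r t‖
      ≤ 2 * ((1 + π / 2) / √r) + 2 * ((1 + π / 2) / √r) := add_le_add h3 h3
    _ = (4 + 2 * π) / √r := by ring

/-- comparison of the sum and the integral -/
theorem riemann {r φ : ℝ} (hr : 0 ≤ r) (L : ℕ) (hL : 0 < L) :
    ‖∑ j ∈ Finset.range L, U r (2 * π * j / L + φ)‖ ≤
      L / (2 * π) * ‖∫ t in (0 : ℝ)..(2 * π), U r t‖ + 2 * π * r := by
  have hLR : (0 : ℝ) < L := by exact_mod_cast hL
  have hpi := Real.pi_pos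
  set h : ℝ := 2 * π / L with hh
  have hh0 : 0 < h := by positivity
  set a : ℕ → ℝ := fun j => h * j + φ with ha
  have haa : ∀ j, a j ≤ a (j + 1) := by
    intro j
    simp only [ha]
    push_cast
    nlinarith
  have hU : ∀ a b : ℝ, IntervalIntegrable (U r) volume a b :=
    fun a b => (U_cont r).intervalIntegrable a b
  have h1 : ∑ j ∈ Finset.range L, ∫ t in (a j)..(a (j + 1)), U r t =
      ∫ t in (0 : ℝ)..(2 * π), U r t := by
    rw [intervalIntegral.sum_integral_adjacent_intervals (fun k _ => hU _ _)]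
    have h2 : a 0 = φ := by simp [ha]
    have h3 : a L = φ + 2 * π := by
      simp only [ha, hh]
      field_simp
      ring
    rw [h2, h3]
    have hper : Function.Periodic (U r) (2 * π) := by
      intro x
      simp only [U]
      rw [Real.cos_add_two_pi]
    have := hper.intervalIntegral_add_eq φ 0
    rw [zero_add] at this
    exact this
  have h4 : ∀ j : ℕ, ‖(∫ t in (a j)..(a (j + 1)), U r t) - h * U r (a j)‖ ≤ r * h ^ 2 := by
    intro j
    have hd : a (j + 1) - a j = h := by
      simp only [ha]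
      push_cast
      ring
    have h5 : (h : ℂ) * U r (a j) = ∫ t in (a j)..(a (j + 1)), U r (a j) := by
      rw [intervalIntegral.integral_const, hd]
      simp
    rw [h5, ← intervalIntegral.integral_sub (hU _ _) (by simp)]
    have h6 : ‖∫ t in (a j)..(a (j + 1)), (U r t - U r (a j))‖ ≤
        ∫ t in (a j)..(a (j + 1)), 2 * r * (t - a j) := by
      refine intervalIntegral.norm_integral_le_of_norm_le (haa j) ?_ ?_
      · refine Filter.Eventually.of_forall ?_
        intro t ht
        have := U_lip r t (a j)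
        rwa [abs_of_nonneg hr, abs_of_pos (by linarith [ht.1])] at this
      · refine Continuous.intervalIntegrable (by fun_prop) _ _
    refine h6.trans (le_of_eq ?_)
    rw [intervalIntegral.integral_const_mul]
    have h7 := intervalIntegral.integral_comp_sub_right (a := a j) (b := a (j + 1))
      (fun t : ℝ => t) (a j)
    simp only [sub_self, hd] at h7
    rw [h7, integral_id]
    ring
  have h8 : ‖(∫ t in (0 : ℝ)..(2 * π), U r t) - h * ∑ j ∈ Finset.range L, U r (a j)‖ ≤
      L * (r * h ^ 2) := by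
    rw [← h1, Finset.mul_sum, ← Finset.sum_sub_distrib]
    refine (norm_sum_le _ _).trans ?_
    refine (Finset.sum_le_sum fun j _ => h4 j).trans ?_
    rw [Finset.sum_const, Finset.card_range, nsmul_eq_mul]
  have h9 : ∀ j : ℕ, U r (2 * π * j / L + φ) = U r (a j) := by
    intro j
    simp only [ha, hh]
    congr 1
    ring
  simp only [h9]
  have h10 : h * ‖∑ j ∈ Finset.range L, U r (a j)‖ ≤
      ‖∫ t in (0 : ℝ)..(2 * π), U r t‖ + L * (r * h ^ 2) := by
    have : h * ‖∑ j ∈ Finset.range L, U r (a j)‖ = ‖(h : ℂ) * ∑ j ∈ Finset.range L, U r (a j)‖ := by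
      rw [norm_mul, Complex.norm_real, Real.norm_eq_abs, abs_of_pos hh0]
    rw [this]
    have h11 := norm_sub_norm_le ((h : ℂ) * ∑ j ∈ Finset.range L, U r (a j))
      (∫ t in (0 : ℝ)..(2 * π), U r t)
    rw [norm_sub_rev] at h11
    linarith
  have h12 : ‖∑ j ∈ Finset.range L, U r (a j)‖ ≤
      (‖∫ t in (0 : ℝ)..(2 * π), U r t‖ + L * (r * h ^ 2)) / h := by
    rw [le_div_iff₀ hh0, mul_comm]
    exact h10
  refine h12.trans (le_of_eq ?_)
  rw [hh]
  field_simp

theorem osc : Pool.Agent.W788.BK.S_OSC := by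
  intro L _ z hz
  have hL : 0 < L := Nat.pos_of_ne_zero (NeZero.ne L)
  have hLR : (0 : ℝ) < L := by exact_mod_cast hL
  set r := ‖z‖ with hr
  have hr0 : 0 ≤ r := norm_nonneg z
  have hs0 : 0 < √(1 + r) := Real.sqrt_pos.mpr (by linarith)
  rcases le_or_gt r 99 with h99 | h99
  · have h1 : ‖∑ k : ZMod L, Complex.exp (Complex.I * ((2 * (z * ZMod.stdAddChar k).re : ℝ) : ℂ))‖
        ≤ L := by
      refine (norm_sum_le _ _).trans ?_
      have : ∀ k : ZMod L,
          ‖Complex.exp (Complex.I * ((2 * (z * ZMod.stdAddChar k).re : ℝ) : ℂ))‖ = 1 := by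
        intro k
        rw [mul_comm]
        exact Complex.norm_exp_ofReal_mul_I _
      rw [Finset.sum_congr rfl fun k _ => this k]
      simp [ZMod.card]
    refine h1.trans ?_
    rw [le_div_iff₀ hs0, mul_comm]
    have h2 : √(1 + r) ≤ 10 := by
      rw [show (10 : ℝ) = √100 by
        rw [show (100 : ℝ) = 10 ^ 2 by norm_num, Real.sqrt_sq (by norm_num)]]
      exact Real.sqrt_le_sqrt (by linarith)
    gcongr
  · have hsum : ∑ k : ZMod L,
        Complex.exp (Complex.I * ((2 * (z * ZMod.stdAddChar k).re : ℝ) : ℂ)) =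
        ∑ j ∈ Finset.range L, U r (2 * π * j / L + Complex.arg z) := by
      have h1 : ∀ j : ℕ, Complex.exp (Complex.I *
          ((2 * (z * ZMod.stdAddChar ((j : ℕ) : ZMod L)).re : ℝ) : ℂ)) =
          U r (2 * π * j / L + Complex.arg z) := by
        intro j
        simp only [U]
        congr 4
        have h2 : (ZMod.stdAddChar ((j : ℕ) : ZMod L) : ℂ) =
            Complex.exp (2 * π * Complex.I * j / L) := by
          have := ZMod.stdAddChar_coe (N := L) (j : ℤ)
          push_cast at this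
          exact this
        rw [h2]
        nth_rewrite 1 [← Complex.norm_mul_exp_arg_mul_I z]
        rw [mul_assoc, ← Complex.exp_add, ← hr]
        have h3 : (Complex.arg z : ℂ) * Complex.I + 2 * π * Complex.I * j / L =
            ((2 * π * j / L + Complex.arg z : ℝ) : ℂ) * Complex.I := by
          push_cast
          ring
        rw [h3, Complex.re_ofReal_mul, Complex.exp_ofReal_mul_I_re]
      rw [← Finset.sum_congr rfl fun j _ => h1 j]
      refine Finset.sum_nbij' (fun k : ZMod L => k.val) (fun j : ℕ => (j : ZMod L)) ?_ ?_ ?_ ?_ ?_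
      · intro k _
        exact Finset.mem_range.mpr (ZMod.val_lt k)
      · intro j _
        exact Finset.mem_univ _
      · intro k _
        simp
      · intro j hj
        exact ZMod.val_cast_of_lt (Finset.mem_range.mp hj)
      · intro k _
        simp
    rw [hsum]
    refine (riemann hr0 L hL).trans ?_
    have hful := full (r := r) (by linarith)
    have hpi1 : π < 3.15 := Real.pi_lt_d2
    have hpi0 : 3 < π := Real.pi_gt_three
    have hsr : 0 < √r := Real.sqrt_pos.mpr (by linarith)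
    -- first term
    have h1 : L / (2 * π) * ‖∫ t in (0 : ℝ)..(2 * π), U r t‖ ≤ 3 * L / √(1 + r) := by
      have h2 : L / (2 * π) * ‖∫ t in (0 : ℝ)..(2 * π), U r t‖ ≤
          L / (2 * π) * ((4 + 2 * π) / √r) := by gcongr
      refine h2.trans ?_
      have h3 : √(1 + r) ≤ 1.1 * √r := by
        rw [show (1.1 : ℝ) = √(1.21) by
          rw [show (1.21 : ℝ) = 1.1 ^ 2 by norm_num, Real.sqrt_sq (by norm_num)],
          ← Real.sqrt_mul (by norm_num)]
        exact Real.sqrt_le_sqrt (by linarith)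
      have h4 : L / (2 * π) * ((4 + 2 * π) / √r) = L * ((2 + π) / (π * √r)) := by
        field_simp
        ring
      have h5 : 3 * L / √(1 + r) = L * (3 / √(1 + r)) := by ring
      rw [h4, h5]
      refine mul_le_mul_of_nonneg_left ?_ hLR.le
      rw [div_le_div_iff₀ (by positivity) hs0]
      nlinarith [mul_pos (by linarith : 0 < π) hsr]
    -- second term
    have h2 : 2 * π * r ≤ 6.5 * L / √(1 + r) := by
      rw [le_div_iff₀ hs0]
      have h3 : (1 + r) * √(1 + r) ≤ L := by
        have h4 : ((1 + r) * √(1 + r)) ^ 2 = (1 + r) ^ 3 := by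
          rw [mul_pow, Real.sq_sqrt (by linarith)]
          ring
        exact le_of_sq_le_sq (by rw [h4]; exact hz) hLR.le
      have h5 : 2 * π * r * √(1 + r) ≤ 2 * π * ((1 + r) * √(1 + r)) := by
        have : 0 ≤ 2 * π * √(1 + r) := by positivity
        nlinarith
      nlinarith
    calc L / (2 * π) * ‖∫ t in (0 : ℝ)..(2 * π), U r t‖ + 2 * π * r
        ≤ 3 * L / √(1 + r) + 6.5 * L / √(1 + r) := add_le_add h1 h2
      _ = 9.5 * L / √(1 + r) := by ring
      _ ≤ 10 * L / √(1 + r) := by gcongr; norm_num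

end Pool.Agent.W918.BK.Osc
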